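import Pool.Agent.H561.CM.A10

/-!
# The Goldbach-Knjzek-Rivera conjecture for almost all even numbers, with the numbers of the pairs of PRIMES

Rivera's conjecture: every even `N > 4` is `p + q` with primes `p`, `q` and `√N < p < 4 √N`. Here: for almost all even
`N ≤ X`, with at most `X / (log X) ^ A` exceptions, this is true, the number of these primes `p` is
`(1 + o(1)) 6 𝔖(N) √N / (log N) ^ 2`, and the asymptotic formula holds in ALL windows of the relative length
`1 / (log N) ^ W` between `√N / (log N) ^ B` and `√N (log N) ^ B`.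

Definition used (in `Pool.Agent.H560R3.GB`): `sing N = 2 C₂ ∏_{p ∣ N, p > 2} (p - 1) / (p - 2)`, the singular series,
where `C₂ = ∏_{p > 2} (1 - 1 / (p - 1) ^ 2)` is the twin prime constant.

Proof (`Pool.Agent.H561`): Vaughan's identity, mean values of Dirichlet polynomials and Vinogradov's method (from the library) give the mean square of
the error term for primes in arithmetic progressions to moduli up to powers of `log X` in intervals of length
`√X / (log X) ^ G`, compared with a sieve model; the circle method with the wide major arcs of the small prime.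
-/

set_option autoImplicit false

namespace Pool.Agent.Results.MP_b454d1_nt.GenuinePrimesAlmostAll

open Finset
open Pool.Agent.H560R3.GB (sing)

open Classical in
/-- The number of the primes `p` with `u < p ≤ v` such that `N - p` is a prime different from `p`. -/
noncomputable def pairs (N : ℕ) (u v : ℝ) : ℕ :=
  ((range (N + 1)).filter (fun p : ℕ => p.Prime ∧ (N - p).Prime ∧ p ≠ N - p ∧ u < p ∧ (p : ℝ) ≤ v)).card

open Classical in
/-- The number of the primes `p` with `√N < p < 4 √N` such that `N - p` is a prime. -/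
noncomputable def rivera (N : ℕ) : ℕ :=
  ((range (N + 1)).filter (fun p : ℕ => p.Prime ∧ (N - p).Prime ∧ √(N : ℝ) < p ∧ (p : ℝ) < 4 * √(N : ℝ))).card

/-- (1) There is a prime `p` with `√N < p < 4 √N` such that `N - p` is a prime; (2) the number of these primes `p` is
`6 sing N √N / (log N)²`, up to a relative error of at most `ε`; (3) for all `√N / (log N)^B ≤ u < v ≤ √N (log N)^B` with
`v - u ≥ v / (log N)^W` the number of the primes `p`, `u < p ≤ v`, such that `N - p` is a prime different from `p`, is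
`2 sing N (v - u) / (log N)²`, up to a relative error of at most `ε`. -/
def Holds (ε : ℝ) (W B N : ℕ) : Prop :=
  (∃ p : ℕ, p.Prime ∧ (N - p).Prime ∧ √(N : ℝ) < p ∧ (p : ℝ) < 4 * √(N : ℝ)) ∧
  |(rivera N : ℝ) - 6 * sing N * √(N : ℝ) / Real.log N ^ 2| ≤ ε * (6 * sing N * √(N : ℝ) / Real.log N ^ 2) ∧
  ∀ u v : ℝ, √(N : ℝ) / Real.log N ^ B ≤ u → v ≤ √(N : ℝ) * Real.log N ^ B → v / Real.log N ^ W ≤ v - u →
    |(pairs N u v : ℝ) - 2 * sing N * (v - u) / Real.log N ^ 2| ≤ ε * (2 * sing N * (v - u) / Real.log N ^ 2)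

open Classical in
/-- the exceptional even numbers up to `X` -/
noncomputable def exceptional (ε : ℝ) (W B X : ℕ) : Finset ℕ :=
  (Icc 1 X).filter (fun N : ℕ => 2 ∣ N ∧ ¬ Holds ε W B N)

lemma step (ε : ℝ) (hε : 0 < ε) (hε1 : ε ≤ 1 / 2) (W B : ℕ) : ∃ N₀ : ℕ, ∀ N : ℕ, N₀ ≤ N →
    Pool.Agent.H561.CM.HoldsA (ε / 8) (W + 1) B N → ∀ u v : ℝ, √(N : ℝ) / Real.log N ^ B ≤ u →
    v ≤ √(N : ℝ) * Real.log N ^ B → v / Real.log N ^ (W + 1) ≤ v - u →
    |(pairs N u v : ℝ) - 2 * sing N * (v - u) / Real.log N ^ 2| ≤ ε / 2 * (2 * sing N * (v - u) / Real.log N ^ 2) := by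
  obtain ⟨m1, h1⟩ := Pool.Agent.H373R2.T7.ev_L' 10
  obtain ⟨m2, h2⟩ := Pool.Agent.H373R2.T7.ev_log' B 1
  obtain ⟨m3, h3⟩ := Pool.Agent.H561.CM.ev_ll B (ε / 32) (by positivity)
  refine ⟨m1 + m2 + m3 + 2, fun m hm hA u v hu hv huv => ?_⟩
  have hL := h1 m (by omega)
  have a2 := h2 m (by omega)
  have a3 := h3 m (by omega)
  have hm0 : (0 : ℝ) < m := by exact_mod_cast (by omega : 0 < m)
  have hss : √(m : ℝ) * √(m : ℝ) = m := Real.mul_self_sqrt hm0.le
  have hs0 : 0 < √(m : ℝ) := Real.sqrt_pos.2 hm0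
  have hsing := Pool.Agent.W93.GB.one_le_sing m
  obtain ⟨S, hSd⟩ : ∃ S, S = sing m := ⟨_, rfl⟩
  unfold Pool.Agent.H561.CM.HoldsA at hA
  have hpd : ∀ u v : ℝ, pairs m u v = Pool.Agent.R460.GH.dist m u v := fun _ _ => rfl
  rw [hpd]
  obtain ⟨ℓ, hℓ⟩ : ∃ ℓ, ℓ = Real.log (m : ℝ) := ⟨_, rfl⟩
  rw [← hSd] at hsing hA ⊢
  rw [← hℓ] at hL a2 a3 hu hv huv hA ⊢
  have hℓ1 : 1 ≤ ℓ := by linarith
  have hℓ0 : 0 < ℓ := by linarith
  have hB0 : 0 < ℓ ^ B := by positivity
  have hu0 : 0 < u := lt_of_lt_of_le (by positivity) hu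
  have hvu : 0 ≤ v - u := by
    by_contra hcon
    push Not at hcon
    have e1 : 0 < ℓ ^ (W + 1) := by positivity
    by_cases hv0 : 0 ≤ v
    · have : 0 ≤ v / ℓ ^ (W + 1) := div_nonneg hv0 e1.le
      linarith
    · push Not at hv0
      have : v ≤ v / ℓ ^ (W + 1) := by
        rw [le_div_iff₀ e1]
        have : 1 ≤ ℓ ^ (W + 1) := one_le_pow₀ hℓ1
        nlinarith
      linarith
  have hvb : √(m : ℝ) / ℓ ^ B ≤ v := by linarith
  have hv0 : 0 < v := by linarith
  have hvm : v ≤ m := by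
    refine hv.trans ?_
    calc √(m : ℝ) * ℓ ^ B ≤ √(m : ℝ) * √(m : ℝ) := by
          apply mul_le_mul_of_nonneg_left _ hs0.le
          linarith
      _ = m := hss
  have hH := hA u v hu0.le hvb hvm huv
  have hls : Real.log √(m : ℝ) = ℓ / 2 := by rw [Real.log_sqrt hm0.le, hℓ]
  have hlogv1 : ℓ / 2 - ε / 32 * ℓ ≤ Real.log v := by
    have e1 := Real.log_le_log (by positivity) hvb
    rw [Real.log_div hs0.ne' hB0.ne', Real.log_pow, hls] at e1
    linarith
  have hlogv2 : Real.log v ≤ ℓ / 2 + ε / 32 * ℓ := by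
    have e1 := Real.log_le_log hv0 hv
    rw [Real.log_mul hs0.ne' hB0.ne', Real.log_pow, hls] at e1
    linarith
  obtain ⟨h, hh⟩ : ∃ h, h = v - u := ⟨_, rfl⟩
  rw [← hh] at hvu hH ⊢
  have hεℓ : ε * ℓ ≤ 1 / 2 * ℓ := mul_le_mul_of_nonneg_right hε1 hℓ0.le
  have hlogv0 : 0 < Real.log v := by linarith
  obtain ⟨M, hM⟩ : ∃ M, M = S * h / (Real.log v * ℓ) := ⟨_, rfl⟩
  obtain ⟨M', hM'⟩ : ∃ M', M' = 2 * S * h / ℓ ^ 2 := ⟨_, rfl⟩
  rw [← hM] at hH
  rw [← hM']
  have hSh : 0 ≤ S * h := mul_nonneg (by linarith) hvu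
  have hM0 : 0 ≤ M := by rw [hM]; positivity
  have hM'0 : 0 ≤ M' := by rw [hM', mul_assoc]; positivity
  have c1 : M ≤ (1 + ε / 8) * M' := by
    rw [hM, hM', mul_div_assoc', div_le_div_iff₀ (by positivity) (by positivity)]
    have e1 : ℓ ≤ (1 + ε / 8) * 2 * Real.log v := by nlinarith
    calc S * h * ℓ ^ 2 = (S * h) * ℓ * ℓ := by ring
      _ ≤ (S * h) * ℓ * ((1 + ε / 8) * 2 * Real.log v) := by gcongr
      _ = (1 + ε / 8) * (2 * S * h) * (Real.log v * ℓ) := by ring
  have c2 : M' ≤ (1 + ε / 8) * M := by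
    rw [hM, hM', mul_div_assoc', div_le_div_iff₀ (by positivity) (by positivity)]
    have e1 : 2 * Real.log v ≤ (1 + ε / 8) * ℓ := by nlinarith
    calc 2 * S * h * (Real.log v * ℓ) = (S * h) * ℓ * (2 * Real.log v) := by ring
      _ ≤ (S * h) * ℓ * ((1 + ε / 8) * ℓ) := by gcongr
      _ = (1 + ε / 8) * (S * h) * ℓ ^ 2 := by ring
  rw [abs_le] at hH ⊢
  obtain ⟨b1, b2⟩ := hH
  have q1 : ε * (ε * M') ≤ ε * (1 / 2 * M') := by
    apply mul_le_mul_of_nonneg_left _ hε.le
    exact mul_le_mul_of_nonneg_right hε1 hM'0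
  have q2 : ε * M ≤ ε * ((1 + ε / 8) * M') := mul_le_mul_of_nonneg_left c1 hε.le
  have q0 : 0 ≤ ε * M' := by positivity
  have q00 : 0 ≤ ε * M := by positivity
  constructor
  · nlinarith
  · nlinarith

lemma holds_of (ε : ℝ) (hε : 0 < ε) (W B : ℕ) (hB : 1 ≤ B) : ∃ N₀ : ℕ, ∀ N : ℕ, N₀ ≤ N →
    Pool.Agent.H561.CM.HoldsA (min ε (1 / 2) / 8) (W + 1) B N → Holds ε W B N := by
  obtain ⟨δ, hδ⟩ : ∃ δ, δ = min ε (1 / 2) := ⟨_, rfl⟩
  have hδ0 : 0 < δ := by rw [hδ]; positivity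
  have hδ1 : δ ≤ 1 / 2 := by rw [hδ]; exact min_le_right _ _
  have hδε : δ ≤ ε := by rw [hδ]; exact min_le_left _ _
  rw [← hδ]
  obtain ⟨m1, h1⟩ := step δ hδ0 hδ1 W B
  obtain ⟨m2, h2⟩ := Pool.Agent.H373R2.T7.ev_L' 4
  obtain ⟨m3, h3⟩ := Pool.Agent.H373R2.T7.ev_log' 2 (2 + 1 / δ)
  refine ⟨m1 + m2 + m3 + 100, fun m hm hA => ?_⟩
  have hS := h1 m (by omega) hA
  have hL := h2 m (by omega)
  have a3 := h3 m (by omega)
  have hm0 : (0 : ℝ) < m := by exact_mod_cast (by omega : 0 < m)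
  have hm100 : (100 : ℝ) ≤ m := by exact_mod_cast (by omega : 100 ≤ m)
  have hss : √(m : ℝ) * √(m : ℝ) = m := Real.mul_self_sqrt hm0.le
  have hs0 : 0 < √(m : ℝ) := Real.sqrt_pos.2 hm0
  have hs10 : 10 ≤ √(m : ℝ) := by
    apply Real.le_sqrt_of_sq_le
    linarith
  have hsing := Pool.Agent.W93.GB.one_le_sing m
  have hLpos : 0 < Real.log (m : ℝ) := by linarith
  have hL1 : 1 ≤ Real.log (m : ℝ) := by linarith
  have hLB : Real.log m ≤ Real.log (m : ℝ) ^ B := le_self_pow₀ hL1 (by omega)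
  have hW1 : (1 : ℝ) ≤ Real.log (m : ℝ) ^ W := one_le_pow₀ hL1
  have hWW : Real.log (m : ℝ) ≤ Real.log (m : ℝ) ^ (W + 1) := le_self_pow₀ hL1 (by omega)
  -- the full window
  have hfull := hS (√(m : ℝ)) (4 * √(m : ℝ)) (by
    rw [div_le_iff₀ (by positivity)]
    exact le_mul_of_one_le_right hs0.le (by linarith)) (by
    rw [mul_comm]
    apply mul_le_mul_of_nonneg_left _ hs0.le
    linarith) (by
    rw [div_le_iff₀ (by positivity)]
    have : (4 : ℝ) ≤ Real.log (m : ℝ) ^ (W + 1) := by linarith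
    nlinarith)
  have hM : 2 * sing m * (4 * √(m : ℝ) - √(m : ℝ)) / Real.log m ^ 2 = 6 * sing m * √(m : ℝ) / Real.log m ^ 2 := by ring
  rw [hM] at hfull
  obtain ⟨M, hMd⟩ : ∃ M, M = 6 * sing m * √(m : ℝ) / Real.log m ^ 2 := ⟨_, rfl⟩
  rw [← hMd] at hfull
  have hMbig : 2 * (2 + 1 / δ) ≤ M := by
    rw [hMd, le_div_iff₀ (by positivity)]
    have : √(m : ℝ) ≤ sing m * √(m : ℝ) := le_mul_of_one_le_left hs0.le hsing
    nlinarith
  have hδi : 0 < 1 / δ := by positivity
  have hM0 : 0 < M := by linarith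
  have hδM : 1 ≤ δ / 2 * M := by
    have e1 : δ / 2 * (2 * (2 + 1 / δ)) ≤ δ / 2 * M := mul_le_mul_of_nonneg_left hMbig (by positivity)
    have e2 : δ / 2 * (2 * (2 + 1 / δ)) = 2 * δ + 1 := by field_simp
    linarith
  -- comparison
  have hr1 : rivera m ≤ pairs m (√(m : ℝ)) (4 * √(m : ℝ)) := by
    classical
    unfold rivera pairs
    apply card_le_card
    intro p hp
    rw [mem_filter, mem_range] at hp ⊢
    obtain ⟨p1, p2, p3, p4, p5⟩ := hp
    refine ⟨p1, p2, p3, ?_, p4, p5.le⟩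
    intro hpp
    have e1 : (2 * p : ℕ) = m := by
      have : p ≤ m := by omega
      omega
    have e2 : (2 : ℝ) * p = m := by exact_mod_cast e1
    nlinarith
  have hr2 : pairs m (√(m : ℝ)) (4 * √(m : ℝ)) ≤ rivera m + 1 := by
    classical
    unfold rivera pairs
    refine (card_le_card (t := insert ⌊4 * √(m : ℝ)⌋₊ ((range (m + 1)).filter (fun p : ℕ => p.Prime ∧ (m - p).Prime ∧
      √(m : ℝ) < p ∧ (p : ℝ) < 4 * √(m : ℝ)))) ?_).trans (card_insert_le _ _)
    intro p hp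
    rw [mem_filter, mem_range] at hp
    obtain ⟨p1, p2, p3, p4, p5, p6⟩ := hp
    rw [mem_insert, mem_filter, mem_range]
    rcases p6.lt_or_eq with h | h
    · right
      exact ⟨p1, p2, p3, p5, h⟩
    · left
      rw [← h, Nat.floor_natCast]
  have hr1' : (rivera m : ℝ) ≤ pairs m (√(m : ℝ)) (4 * √(m : ℝ)) := by exact_mod_cast hr1
  have hr2' : (pairs m (√(m : ℝ)) (4 * √(m : ℝ)) : ℝ) ≤ rivera m + 1 := by exact_mod_cast hr2
  have hmain : |(rivera m : ℝ) - M| ≤ δ * M := by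
    rw [abs_le] at hfull ⊢
    constructor <;> linarith
  have hδMε : δ * M ≤ ε * M := mul_le_mul_of_nonneg_right hδε hM0.le
  refine ⟨?_, ?_, ?_⟩
  · have e1 : 0 < (rivera m : ℝ) := by
      rw [abs_le] at hmain
      have : δ * M ≤ 1 / 2 * M := mul_le_mul_of_nonneg_right hδ1 hM0.le
      linarith
    have e2 : 0 < rivera m := by exact_mod_cast e1
    unfold rivera at e2
    rw [card_pos] at e2
    obtain ⟨p, hp⟩ := e2
    rw [mem_filter] at hp
    obtain ⟨_, p2, p3, p4, p5⟩ := hp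
    exact ⟨p, p2, p3, p4, p5⟩
  · rw [← hMd]
    exact hmain.trans hδMε
  · intro u v hu hv huv
    have hu0 : 0 ≤ u := le_trans (by positivity) hu
    have e0 : v / Real.log m ^ (W + 1) ≤ v - u := by
      by_cases hv0 : 0 ≤ v
      · refine le_trans ?_ huv
        apply div_le_div_of_nonneg_left hv0 (by positivity)
        exact pow_le_pow_right₀ hL1 (by omega)
      · exfalso
        push Not at hv0
        have : v ≤ v / Real.log m ^ W := by
          rw [le_div_iff₀ (by positivity)]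
          nlinarith
        have e5 : 0 < √(m : ℝ) / Real.log m ^ B := by positivity
        linarith
    have e1 := hS u v hu hv e0
    refine e1.trans ?_
    have e3 : 0 ≤ v - u := by
      by_cases hv0 : 0 ≤ v
      · exact (div_nonneg hv0 (by positivity)).trans huv
      · exfalso
        push Not at hv0
        have : v ≤ v / Real.log m ^ W := by
          rw [le_div_iff₀ (by positivity)]
          nlinarith
        have e5 : 0 < √(m : ℝ) / Real.log m ^ B := by positivity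
        linarith
    have e4 : 0 ≤ 2 * sing m * (v - u) / Real.log m ^ 2 := by
      apply div_nonneg _ (by positivity)
      apply mul_nonneg _ e3
      linarith
    apply mul_le_mul_of_nonneg_right _ e4
    linarith

/-- **Rivera's conjecture for almost all even numbers, with the asymptotic formula in short windows.** For all `ε > 0`,
`W`, `B ≥ 1` and `A` and all large `X` all but at most `X / (log X) ^ A` of the even numbers `N ≤ X` have the property
`Holds ε W B N`: there are primes `p` with `√N < p < 4 √N` and `N - p` prime, their number is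
`6 sing N √N / (log N)²`, and the number of the primes `p` in `(u, v]` with `N - p` prime (and `≠ p`) is
`2 sing N (v - u) / (log N)²` for all `√N / (log N)^B ≤ u < v ≤ √N (log N)^B` with `v - u ≥ v / (log N)^W`, all up to a
factor between `1 - ε` and `1 + ε`. -/
theorem result (ε : ℝ) (hε : 0 < ε) (W B A : ℕ) (hB : 1 ≤ B) :
    ∃ X₀ : ℕ, ∀ X : ℕ, X₀ ≤ X → ((exceptional ε W B X).card : ℝ) ≤ X / Real.log X ^ A := by
  classical
  obtain ⟨N0, hN0⟩ := holds_of ε hε W B hB
  obtain ⟨X1, h1⟩ := Pool.Agent.H561.CM.allA (min ε (1 / 2) / 8) (by positivity) (W + 1) B (A + 1)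
  obtain ⟨X2, h2⟩ := Pool.Agent.H373R2.T7.ev_L' 2
  obtain ⟨X3, h3⟩ := Pool.Agent.H373R2.T7.ev_log' A 2
  refine ⟨X1 + X2 + X3 + N0 ^ 2 + 1, fun X hX => ?_⟩
  have a1 := h1 X (by omega)
  have hL := h2 X (by omega)
  have a3 := h3 X (by omega)
  have hX0 : (0 : ℝ) < X := by exact_mod_cast (by omega : 0 < X)
  have hss : √(X : ℝ) * √(X : ℝ) = X := Real.mul_self_sqrt hX0.le
  have hsub : exceptional ε W B X ⊆ range N0 ∪
      (Icc 1 X).filter (fun m : ℕ => 2 ∣ m ∧ ¬ Pool.Agent.H561.CM.HoldsA (min ε (1 / 2) / 8) (W + 1) B m) := by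
    intro m hm
    unfold exceptional at hm
    rw [mem_filter] at hm
    rw [mem_union, mem_range, mem_filter]
    by_cases hmN : m < N0
    · left; exact hmN
    · right
      exact ⟨hm.1, hm.2.1, fun hA => hm.2.2 (hN0 m (by omega) hA)⟩
  have hc : ((exceptional ε W B X).card : ℝ) ≤ N0 + X / Real.log X ^ (A + 1) := by
    have e1 := (card_le_card hsub).trans (card_union_le _ _)
    rw [card_range] at e1
    have e2 : ((exceptional ε W B X).card : ℝ) ≤ (N0 : ℝ) +
        ((Icc 1 X).filter (fun m : ℕ => 2 ∣ m ∧ ¬ Pool.Agent.H561.CM.HoldsA (min ε (1 / 2) / 8) (W + 1) B m)).card := by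
      exact_mod_cast e1
    refine e2.trans ?_
    gcongr
  refine hc.trans ?_
  have hN0s : (N0 : ℝ) ≤ √(X : ℝ) := by
    apply Real.le_sqrt_of_sq_le
    have : N0 ^ 2 ≤ X := by omega
    exact_mod_cast this
  obtain ⟨L, hLd⟩ : ∃ L, L = Real.log (X : ℝ) := ⟨_, rfl⟩
  rw [← hLd] at hL a3 ⊢
  have hL0 : 0 < L := by linarith
  have e1 : √(X : ℝ) ≤ X / L ^ A / 2 := by
    rw [le_div_iff₀ (by norm_num), le_div_iff₀ (by positivity)]
    calc √(X : ℝ) * 2 * L ^ A = √(X : ℝ) * (2 * L ^ A) := by ring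
      _ ≤ √(X : ℝ) * √(X : ℝ) := by gcongr
      _ = X := hss
  have e2 : (X : ℝ) / L ^ (A + 1) ≤ X / L ^ A / 2 := by
    rw [pow_succ, div_div]
    gcongr
  linarith

end Pool.Agent.Results.MP_b454d1_nt.GenuinePrimesAlmostAll
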