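import Pool.Agent.H523.CM74
import Pool.Agent.H523.CM56

set_option autoImplicit false

/-!
# Goldbach representations with a prime of prescribed size, over a finite field

The question in the polynomial ring over an arbitrary finite field with `q` elements: the monic
polynomials of degree `n` take the place of the integers of size `X = q ^ n`, `n` the place of
`log X`, and the prime `P'` of degree `m` has size `q ^ m`; `m = n / 2` is the window of the
question.
-/

namespace Pool.Agent.Results.MP_b454d1_nt.PrimesOfEverySize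

open Polynomial Filter
open Pool.Agent.H341R2.Sharp (Mon mem_Mon)
open Pool.Agent.H523.FF (Ir mem_Ir PL mem_PL IrLE mem_IrLE two_le_card)
open Pool.Agent.H523

open scoped Topology

/-- the number of the monic irreducible polynomials `P` of degree `m` for which `A - β P` is
irreducible, that is of the representations `A = P₁ + β P` with `P₁` irreducible -/
noncomputable def reps {F : Type} [Field F] (β : F) (m : ℕ) (A : F[X]) : ℕ :=
  {P : F[X] | P.Monic ∧ Irreducible P ∧ P.natDegree = m ∧ Irreducible (A - C β * P)}.ncard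

/-- the local factor: `1 + 1 / (|P| - 1)` if `P` divides `A`, and `1 - 1 / (|P| - 1) ^ 2` otherwise,
`|P| = q ^ deg P` -/
noncomputable def localFactor {F : Type} [Field F] [Fintype F] (A P : F[X]) : ℝ :=
  open scoped Classical in
  if P ∣ A then 1 + 1 / ((Fintype.card F : ℝ) ^ P.natDegree - 1)
  else 1 - 1 / ((Fintype.card F : ℝ) ^ P.natDegree - 1) ^ 2

/-- the product of the local factors over the monic irreducible polynomials of degree at most `y`;
its limit for `y → ∞` is the singular series of `A` -/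
noncomputable def partialProduct {F : Type} [Field F] [Fintype F] (A : F[X]) (y : ℕ) : ℝ :=
  ∏ᶠ P ∈ {P : F[X] | P.Monic ∧ Irreducible P ∧ P.natDegree ≤ y}, localFactor A P

/-- `A` is nonzero and not obstructed; an obstruction exists only over the field with two elements,
where `A` must be divisible by `X` and `X + 1` (the analogue of `N` even) -/
def Admissible {F : Type} [Field F] [Fintype F] (A : F[X]) : Prop :=
  A ≠ 0 ∧ (Fintype.card F = 2 → X ∣ A ∧ X + 1 ∣ A)

lemma partialProduct_eq {F : Type} [Field F] [Fintype F] (A : F[X]) (y : ℕ) :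
    partialProduct A y = CM.SP y A := by
  classical
  unfold partialProduct CM.SP
  have h : {P : F[X] | P.Monic ∧ Irreducible P ∧ P.natDegree ≤ y} =
      ((IrLE F y : Finset F[X]) : Set F[X]) := by
    ext P
    rw [Set.mem_ofPred_eq, Finset.mem_coe, mem_IrLE]
  rw [h, finprod_mem_coe_finset]
  refine Finset.prod_congr rfl (fun P hP => ?_)
  rw [CM.cB_values (mem_IrLE.mp hP).2.1]
  unfold localFactor CM.gP
  split_ifs
  · rfl
  · rw [one_div_pow]; ring

lemma local_of_admissible {F : Type} [Field F] [Fintype F] {B : F[X]} (h : Admissible B) :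
    Fintype.card F = 2 → ∀ P : F[X], P.Monic → P.natDegree = 1 → P ∣ B := by
  intro hc P hP hd
  obtain ⟨h1, h2⟩ := h.2 hc
  rw [hP.eq_X_add_C hd]
  -- the two elements
  have h3 : P.coeff 0 = 0 ∨ P.coeff 0 = 1 := by
    by_contra hcon
    push Not at hcon
    classical
    have h4 : ({0, 1, P.coeff 0} : Finset F).card = 3 := by
      rw [Finset.card_insert_of_notMem, Finset.card_insert_of_notMem, Finset.card_singleton]
      · rw [Finset.mem_singleton]; exact fun h => hcon.2 h.symm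
      · rw [Finset.mem_insert, Finset.mem_singleton]
        rintro (h | h)
        · exact zero_ne_one h
        · exact hcon.1 h.symm
    have h5 := Finset.card_le_univ ({0, 1, P.coeff 0} : Finset F)
    omega
  rcases h3 with h3 | h3
  · rw [h3, C_0, add_zero]; exact h1
  · rw [h3, C_1]; exact h2

lemma reps_eq {F : Type} [Field F] [Fintype F] {m n : ℕ} (hmn : m < n) (β : F) {A : F[X]}
    (hA : A ∈ Mon F n) : CM.TS β m n A = (m:ℝ) * n * reps β m A := by
  classical
  unfold CM.TS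
  have h1 : ∀ g ∈ Mon F m, CM.th m g * CM.th n (A - C β * g) =
      if g ∈ Ir F m ∧ A - C β * g ∈ Ir F n then (m:ℝ) * n else 0 := by
    intro g _
    unfold CM.th
    by_cases h1 : g ∈ Ir F m
    · by_cases h2 : A - C β * g ∈ Ir F n
      · simp only [h1, h2, if_true, and_self]
      · simp only [h2, if_false, and_false, mul_zero]
    · simp only [h1, if_false, false_and, zero_mul]
  rw [Finset.sum_congr rfl h1, ← Finset.sum_filter, Finset.sum_const, nsmul_eq_mul, mul_comm]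
  congr 2
  unfold reps
  rw [← Set.ncard_coe_finset]
  congr 1
  ext g
  rw [Finset.mem_coe, Finset.mem_filter, mem_Mon, mem_Ir, mem_Ir, Set.mem_ofPred_eq]
  constructor
  · rintro ⟨-, h2, h3⟩
    exact ⟨h2.1, h2.2.1, h2.2.2, h3.2.1⟩
  · rintro ⟨h1, h2, h3, h4⟩
    have h5 : (C β * g).degree < (n : WithBot ℕ) := by
      refine lt_of_le_of_lt (CM.deg_C_mul_le _ _) ?_
      rw [degree_eq_natDegree h1.ne_zero, h3]
      exact_mod_cast hmn
    have h6 : A - C β * g ∈ Mon F n := by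
      have := (CM.Mon_shift le_rfl (-(C β * g)) A (by rw [degree_neg]; exact h5)).mpr hA
      rwa [← sub_eq_add_neg] at this
    have h7 := mem_Mon.mp h6
    exact ⟨⟨h1, h3⟩, ⟨h1, h2, h3⟩, h7.1, h4, h7.2⟩

/-- powers of `k` against exponentials -/
lemma pow_le_exp (η : ℝ) (hη : 0 < η) : ∃ C : ℝ, 1 ≤ C ∧ ∀ k : ℕ, (k:ℝ) ^ 3 ≤ C * (2 ^ η) ^ k := by
  obtain ⟨N, hN⟩ := CM.poly_le_exp 1 3 η hη
  refine ⟨(N:ℝ) ^ 3 + 1, by have : (0:ℝ) ≤ (N:ℝ) ^ 3 := by positivity
                            linarith, fun k => ?_⟩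
  have h1 : (1:ℝ) ≤ ((2:ℝ) ^ η) ^ k := one_le_pow₀ (Real.one_le_rpow (by norm_num) hη.le)
  have h0 : (0:ℝ) ≤ (N:ℝ) ^ 3 := by positivity
  rcases le_total N k with h | h
  · have h2 := hN k h
    rw [one_mul] at h2
    nlinarith
  · have h2 : (k:ℝ) ^ 3 ≤ (N:ℝ) ^ 3 := pow_le_pow_left₀ (Nat.cast_nonneg _) (by exact_mod_cast h) 3
    nlinarith

/-- the first part -/
lemma part_one : ∃ K : ℝ, 0 < K ∧ ∀ (F : Type) [Field F] [Fintype F] (n m : ℕ), 1 ≤ m → m < n →
    ∀ β : F, β ≠ 0 →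
    ∃ S : F[X] → ℝ, (∀ A : F[X], A ≠ 0 → Tendsto (partialProduct A) atTop (𝓝 (S A))) ∧
      (∀ A : F[X], Admissible A → 1 / 9 ≤ S A) ∧
      ∑ᶠ A ∈ {A : F[X] | A.Monic ∧ A.natDegree = n},
        ((m:ℝ) * n * (reps β m A : ℝ) - S A * (Fintype.card F : ℝ) ^ m) ^ 2 ≤
          K * (Fintype.card F : ℝ) ^ n * ((Fintype.card F : ℝ) ^ m) ^ 2 *
            (n * m ^ 2 / (Fintype.card F : ℝ) ^ (m / 2) +
              (n:ℝ) ^ 2 * m ^ 3 / (Fintype.card F : ℝ) ^ m) ∧
      ({A : F[X] | A.Monic ∧ A.natDegree = n ∧ Admissible A ∧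
        (reps β m A : ℝ) < (Fintype.card F : ℝ) ^ m / (18 * m * n)}.ncard : ℝ) ≤
          K * (Fintype.card F : ℝ) ^ n * (n * m ^ 2 / (Fintype.card F : ℝ) ^ (m / 2) +
            (n:ℝ) ^ 2 * m ^ 3 / (Fintype.card F : ℝ) ^ m) := by
  classical
  set K₀ : ℝ := 108 + 108 * Real.exp 9 + 1000 * Real.exp 11 + 600 * Real.exp 22 with hK₀
  have hK₀0 : 0 < K₀ := by positivity
  refine ⟨324 * K₀, by positivity, fun F _ _ n m hm hmn β hβ => ?_⟩
  have hq := two_le_card (F := F)
  have hmr : (1:ℝ) ≤ m := by exact_mod_cast hm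
  have hnr : (1:ℝ) ≤ n := by exact_mod_cast (by omega : 1 ≤ n)
  have hS0 : ∀ B : F[X], ∃ S : ℝ, B ≠ 0 → Tendsto (fun y => CM.SP y B) atTop (𝓝 S) := by
    intro B
    by_cases hB : B = 0
    · exact ⟨0, fun h => absurd hB h⟩
    · obtain ⟨S, hS⟩ := CM.SP_converges hB
      exact ⟨S, fun _ => hS⟩
  choose S hS using hS0
  have hmain := CM.small_sq hm hmn hβ S hS
  rw [← hK₀] at hmain
  set q : ℝ := (Fintype.card F : ℝ) with hqd
  have hq0 : 0 < q := by linarith
  set W : ℝ := n * m ^ 2 / q ^ (m / 2) + (n:ℝ) ^ 2 * m ^ 3 / q ^ m with hW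
  have hW0 : 0 ≤ W := by positivity
  have hlow : ∀ B : F[X], Admissible B → 1 / 9 ≤ S B := by
    intro B hB
    refine ge_of_tendsto (hS B hB.1) ?_
    filter_upwards [eventually_ge_atTop 1] with y hy
    exact CM.SP_lower (local_of_admissible hB) hy
  have hset : {A : F[X] | A.Monic ∧ A.natDegree = n} = ((Mon F n : Finset F[X]) : Set F[X]) := by
    ext A
    rw [Set.mem_ofPred_eq, Finset.mem_coe, mem_Mon]
  have hsum : ∑ᶠ A ∈ {A : F[X] | A.Monic ∧ A.natDegree = n},
        ((m:ℝ) * n * (reps β m A : ℝ) - S A * q ^ m) ^ 2 =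
      ∑ A ∈ Mon F n, (CM.TS β m n A - q ^ m * S A) ^ 2 := by
    rw [hset, finsum_mem_coe_finset]
    refine Finset.sum_congr rfl (fun A hA => ?_)
    rw [reps_eq hmn β hA]
    ring
  refine ⟨S, ?_, hlow, ?_, ?_⟩
  · intro B hB
    exact (hS B hB).congr (fun y => (partialProduct_eq B y).symm)
  · rw [hsum]
    refine hmain.trans ?_
    have h1 : 0 ≤ q ^ n * (q ^ m) ^ 2 * W := by positivity
    nlinarith
  · set E := (Mon F n).filter (fun A => Admissible A ∧
      (reps β m A : ℝ) < q ^ m / (18 * m * n)) with hE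
    have hE1 : {A : F[X] | A.Monic ∧ A.natDegree = n ∧ Admissible A ∧
        (reps β m A : ℝ) < q ^ m / (18 * m * n)} = ((E : Finset F[X]) : Set F[X]) := by
      ext A
      rw [Set.mem_ofPred_eq, Finset.mem_coe, hE, Finset.mem_filter, mem_Mon, and_assoc]
    rw [hE1, Set.ncard_coe_finset]
    have h1 : (E.card : ℝ) * (q ^ m / 18) ^ 2 ≤ K₀ * (q ^ n * (q ^ m) ^ 2 * W) := by
      refine le_trans ?_ hmain
      rw [← nsmul_eq_mul, ← Finset.sum_const]
      calc ∑ _A ∈ E, (q ^ m / 18) ^ 2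
          ≤ ∑ A ∈ E, (CM.TS β m n A - q ^ m * S A) ^ 2 := by
            refine Finset.sum_le_sum (fun A hA => ?_)
            rw [hE, Finset.mem_filter] at hA
            have h2 := hlow _ hA.2.1
            have h3 := hA.2.2
            rw [lt_div_iff₀ (by positivity)] at h3
            rw [reps_eq hmn β hA.1]
            have h4 : 0 < q ^ m := by positivity
            have h5 : q ^ m * (1 / 9) ≤ q ^ m * S A := mul_le_mul_of_nonneg_left h2 h4.le
            have h6 : q ^ m / 18 ≤ q ^ m * S A - (m:ℝ) * n * (reps β m A : ℝ) := by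
              linarith
            calc (q ^ m / 18) ^ 2 ≤
                (q ^ m * S A - (m:ℝ) * n * (reps β m A : ℝ)) ^ 2 :=
                  pow_le_pow_left₀ (by positivity) h6 2
              _ = _ := by ring
        _ ≤ _ := by
            apply Finset.sum_le_sum_of_subset_of_nonneg
            · exact Finset.filter_subset _ _
            · intro _ _ _
              exact sq_nonneg _
    have h7 : 0 < (q ^ m / 18) ^ 2 := by positivity
    rw [← le_div_iff₀ h7] at h1
    refine h1.trans (le_of_eq ?_)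
    field_simp
    ring

/-- **Goldbach representations with a prime of prescribed size over finite fields.** There is an
absolute constant `K` such that for every finite field, all `1 ≤ m < n` and `β ≠ 0`, the number of
the representations `A = P₁ + β P`, `P` irreducible of degree `m`, has the Hardy-Littlewood value
in mean square over the monic `A` of degree `n`, with the saving `n m² / q ^ (m / 2)`, and the
number of the admissible `A` with fewer than `q ^ m / (18 m n)` representations is at most `q ^ n`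
times the same quantity; in particular almost all admissible `A` of degree `n` have a
representation with a prime of size `q ^ (2 k)` as soon as `q ^ k ≥ n ^ (1 + ε)`. -/
theorem result :
    (∃ K : ℝ, 0 < K ∧ ∀ (F : Type) [Field F] [Fintype F] (n m : ℕ), 1 ≤ m → m < n →
      ∀ β : F, β ≠ 0 →
      ∃ S : F[X] → ℝ, (∀ A : F[X], A ≠ 0 → Tendsto (partialProduct A) atTop (𝓝 (S A))) ∧
        (∀ A : F[X], Admissible A → 1 / 9 ≤ S A) ∧
        ∑ᶠ A ∈ {A : F[X] | A.Monic ∧ A.natDegree = n},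
          ((m:ℝ) * n * (reps β m A : ℝ) - S A * (Fintype.card F : ℝ) ^ m) ^ 2 ≤
            K * (Fintype.card F : ℝ) ^ n * ((Fintype.card F : ℝ) ^ m) ^ 2 *
              (n * m ^ 2 / (Fintype.card F : ℝ) ^ (m / 2) +
                (n:ℝ) ^ 2 * m ^ 3 / (Fintype.card F : ℝ) ^ m) ∧
        ({A : F[X] | A.Monic ∧ A.natDegree = n ∧ Admissible A ∧
          (reps β m A : ℝ) < (Fintype.card F : ℝ) ^ m / (18 * m * n)}.ncard : ℝ) ≤
            K * (Fintype.card F : ℝ) ^ n * (n * m ^ 2 / (Fintype.card F : ℝ) ^ (m / 2) +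
              (n:ℝ) ^ 2 * m ^ 3 / (Fintype.card F : ℝ) ^ m)) ∧
    ∀ ε : ℝ, 0 < ε → ∃ K : ℝ, ∀ (F : Type) [Field F] [Fintype F] (n k : ℕ) (β : F), β ≠ 0 →
      1 ≤ k → 2 * k < n → (n:ℝ) ^ (1 + ε) ≤ (Fintype.card F : ℝ) ^ k →
      ({A : F[X] | A.Monic ∧ A.natDegree = n ∧ Admissible A ∧
        ¬ ∃ P : F[X], P.Monic ∧ Irreducible P ∧ P.natDegree = 2 * k ∧
          Irreducible (A - C β * P)}.ncard : ℝ) ≤
        K * (Fintype.card F : ℝ) ^ n * (n:ℝ) ^ (-(ε / 2)) := by
  obtain ⟨K, hK, hpart⟩ := part_one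
  refine ⟨⟨K, hK, hpart⟩, fun ε hε => ?_⟩
  set η : ℝ := ε / (2 * (1 + ε)) with hη
  have hη0 : 0 < η := by positivity
  have hη1 : η < 1 := by
    rw [hη, div_lt_one (by positivity)]
    linarith
  obtain ⟨D, hD1, hD⟩ := pow_le_exp η hη0
  refine ⟨K * (12 * D), fun F _ _ n k β hβ hk hkn hnk => ?_⟩
  have hq := two_le_card (F := F)
  obtain ⟨S, -, -, -, h4⟩ := hpart F n (2 * k) (by omega) hkn β hβ
  set q : ℝ := (Fintype.card F : ℝ) with hqd
  have hq0 : 0 < q := by linarith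
  have hkr : (1:ℝ) ≤ k := by exact_mod_cast hk
  have hnr : (1:ℝ) ≤ n := by exact_mod_cast (by omega : 1 ≤ n)
  have hn0 : (0:ℝ) < n := by linarith
  -- the inclusion of the sets
  have hfin : {A : F[X] | A.Monic ∧ A.natDegree = n ∧ Admissible A ∧
      (reps β (2 * k) A : ℝ) < q ^ (2 * k) / (18 * ((2 * k : ℕ) : ℝ) * n)}.Finite := by
    refine (Finset.finite_toSet (Mon F n)).subset (fun A hA => ?_)
    rw [Finset.mem_coe, mem_Mon]
    exact ⟨hA.1, hA.2.1⟩
  have hsub : {A : F[X] | A.Monic ∧ A.natDegree = n ∧ Admissible A ∧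
        ¬ ∃ P : F[X], P.Monic ∧ Irreducible P ∧ P.natDegree = 2 * k ∧
          Irreducible (A - C β * P)} ⊆ {A : F[X] | A.Monic ∧ A.natDegree = n ∧ Admissible A ∧
      (reps β (2 * k) A : ℝ) < q ^ (2 * k) / (18 * ((2 * k : ℕ) : ℝ) * n)} := by
    rintro A ⟨h1, h2, h3, h5⟩
    refine ⟨h1, h2, h3, ?_⟩
    have h6 : reps β (2 * k) A = 0 := by
      unfold reps
      have : {P : F[X] | P.Monic ∧ Irreducible P ∧ P.natDegree = 2 * k ∧
          Irreducible (A - C β * P)} = ∅ := by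
        rw [Set.eq_empty_iff_forall_notMem]
        intro P hP
        exact h5 ⟨P, hP⟩
      rw [this, Set.ncard_empty]
    rw [h6, Nat.cast_zero]
    have : (0:ℝ) < ((2 * k : ℕ) : ℝ) := by exact_mod_cast (by omega : 0 < 2 * k)
    positivity
  have hle : ({A : F[X] | A.Monic ∧ A.natDegree = n ∧ Admissible A ∧
        ¬ ∃ P : F[X], P.Monic ∧ Irreducible P ∧ P.natDegree = 2 * k ∧
          Irreducible (A - C β * P)}.ncard : ℝ) ≤ ({A : F[X] | A.Monic ∧ A.natDegree = n ∧
            Admissible A ∧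
      (reps β (2 * k) A : ℝ) < q ^ (2 * k) / (18 * ((2 * k : ℕ) : ℝ) * n)}.ncard : ℝ) := by
    exact_mod_cast Set.ncard_le_ncard hsub hfin
  refine (hle.trans h4).trans ?_
  -- the sizes
  set y : ℝ := q ^ k with hy
  have hy0 : 0 < y := by positivity
  have hny : (n:ℝ) ≤ y := by
    refine le_trans ?_ hnk
    calc (n:ℝ) = (n:ℝ) ^ (1:ℝ) := (Real.rpow_one _).symm
      _ ≤ (n:ℝ) ^ (1 + ε) := Real.rpow_le_rpow_of_exponent_le hnr (by linarith)
  have hy1 : 1 ≤ y := hnr.trans hny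
  have hk3 : (k:ℝ) ^ 3 ≤ D * y ^ η := by
    refine (hD k).trans (mul_le_mul_of_nonneg_left ?_ (by linarith))
    rw [hy, ← Real.rpow_natCast (2 ^ η), ← Real.rpow_mul (by norm_num), mul_comm, Real.rpow_mul (by norm_num),
      Real.rpow_natCast]
    exact Real.rpow_le_rpow (by positivity) (pow_le_pow_left₀ (by norm_num) hq k) hη0.le
  have hk2 : (k:ℝ) ^ 2 ≤ D * y ^ η := by
    refine le_trans ?_ hk3
    nlinarith [sq_nonneg (k:ℝ)]
  -- the two terms
  have hη2 : (1 + ε) * (1 - η) = 1 + ε / 2 := by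
    rw [hη]
    field_simp
    ring
  have hkey : y ^ η / y ≤ (n:ℝ) ^ (-(1 + ε / 2)) := by
    have e1 : y ^ η / y = y ^ (-(1 - η)) := by
      rw [show -(1 - η) = η - 1 by ring, Real.rpow_sub hy0, Real.rpow_one]
    rw [e1, ← hη2, Real.rpow_neg hy0.le, Real.rpow_neg hn0.le, Real.rpow_mul hn0.le]
    apply inv_anti₀
    · positivity
    · exact Real.rpow_le_rpow (by positivity) hnk (by linarith)
  have hneg : (n:ℝ) * (n:ℝ) ^ (-(1 + ε / 2)) = (n:ℝ) ^ (-(ε / 2)) := by
    nth_rw 1 [← Real.rpow_one (n:ℝ)]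
    rw [← Real.rpow_add hn0]
    congr 1
    ring
  have hpos : 0 ≤ (n:ℝ) ^ (-(ε / 2)) := Real.rpow_nonneg hn0.le _
  have e2 : 2 * k / 2 = k := by omega
  have e3 : q ^ (2 * k) = y ^ 2 := by rw [hy, ← pow_mul, mul_comm]
  have t1 : (n:ℝ) * ((2 * k : ℕ) : ℝ) ^ 2 / q ^ (2 * k / 2) ≤ 4 * D * (n:ℝ) ^ (-(ε / 2)) := by
    rw [e2, ← hy]
    push_cast
    calc (n:ℝ) * (2 * (k:ℝ)) ^ 2 / y = 4 * n * (k:ℝ) ^ 2 / y := by ring
      _ ≤ 4 * n * (D * y ^ η) / y := by gcongr
      _ = 4 * D * (n * (y ^ η / y)) := by ring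
      _ ≤ 4 * D * (n * (n:ℝ) ^ (-(1 + ε / 2))) := by gcongr
      _ = _ := by rw [hneg]
  have t2 : (n:ℝ) ^ 2 * ((2 * k : ℕ) : ℝ) ^ 3 / q ^ (2 * k) ≤ 8 * D * (n:ℝ) ^ (-(ε / 2)) := by
    rw [e3]
    push_cast
    calc (n:ℝ) ^ 2 * (2 * (k:ℝ)) ^ 3 / y ^ 2 = 8 * n ^ 2 * (k:ℝ) ^ 3 / y ^ 2 := by ring
      _ ≤ 8 * n ^ 2 * (D * y ^ η) / y ^ 2 := by gcongr
      _ = 8 * D * (n * (y ^ η / y)) * (n / y) := by field_simp
      _ ≤ 8 * D * (n * (n:ℝ) ^ (-(1 + ε / 2))) * 1 := by
          have : (n:ℝ) / y ≤ 1 := by rw [div_le_one hy0]; exact hny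
          gcongr
      _ = _ := by rw [hneg, mul_one]
  calc K * q ^ n * ((n:ℝ) * ((2 * k : ℕ) : ℝ) ^ 2 / q ^ (2 * k / 2) +
        (n:ℝ) ^ 2 * ((2 * k : ℕ) : ℝ) ^ 3 / q ^ (2 * k))
      ≤ K * q ^ n * (4 * D * (n:ℝ) ^ (-(ε / 2)) + 8 * D * (n:ℝ) ^ (-(ε / 2))) := by gcongr
    _ = _ := by ring

end Pool.Agent.Results.MP_b454d1_nt.PrimesOfEverySize
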